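import Pool.Agent.W2helper76.UE.Stm

/-!
# Uniform exponents, piece P: relations between exponentials and logarithms
-/

set_option autoImplicit false

namespace Pool.Agent.W2helper3.UE

open Finset Pool.Agent.W2helper76.UE

/-- the exponent with bounded entries -/
noncomputable def expoP {s k D : ℕ} (p : (Fin s → Fin (D + 1)) × (Fin k → Fin (D + 1))) :
    (Fin s ⊕ Fin k) →₀ ℕ :=
  Finsupp.equivFunOnFinite.symm (Sum.elim (fun i => (p.1 i : ℕ)) (fun j => (p.2 j : ℕ)))

theorem expoP_injective {s k D : ℕ} :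
    Function.Injective (expoP : (Fin s → Fin (D + 1)) × (Fin k → Fin (D + 1)) → _) := by
  intro a b h
  have h1 : ∀ v, expoP a v = expoP b v := fun v => DFunLike.congr_fun h v
  refine Prod.ext ?_ ?_
  · funext i
    exact Fin.ext (h1 (Sum.inl i))
  · funext j
    exact Fin.ext (h1 (Sum.inr j))

theorem poly : PolyStm := by
  classical
  intro s D k y hy α hα hli P hdeg h0
  let e : Fin ((D + 1) ^ s) ≃ (Fin s → Fin (D + 1)) := finFunctionFinEquiv.symm
  let γ : Fin ((D + 1) ^ s) → ℂ := fun m => ∑ i, ((e m i : ℕ) : ℂ) * α i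
  have hγ : ∀ m, IsAlgebraic ℚ (γ m) := by
    intro m
    have h1 : γ m ∈ QB := sum_mem fun i _ => mul_mem (natCast_mem QB _)
      (mem_algebraicClosure_iff.2 (hα i))
    exact mem_algebraicClosure_iff.1 h1
  have hinj : Function.Injective γ := by
    intro m m' hmm
    apply e.injective
    have h6 := Fintype.linearIndependent_iff.1 hli
      (fun i => ((e m i : ℕ) : ℚ) - ((e m' i : ℕ) : ℚ)) (by
        have h7 : ∑ i, ((e m i : ℕ) : ℂ) * α i - ∑ i, ((e m' i : ℕ) : ℂ) * α i = 0 :=
          sub_eq_zero.2 hmm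
        rw [← Finset.sum_sub_distrib] at h7
        rw [← h7]
        refine Finset.sum_congr rfl fun i _ => ?_
        rw [Rat.smul_def]
        push_cast
        ring)
    funext i
    have h8 := h6 i
    have h9 : ((e m i : ℕ) : ℚ) = ((e m' i : ℕ) : ℚ) := sub_eq_zero.1 h8
    exact Fin.ext (by exact_mod_cast h9)
  have hL := Fintype.linearIndependent_iff.1 (hy γ hγ hinj)
    (fun p => P.coeff (expoP (e p.1, p.2)))
  have hsupp : P.support ⊆
      (univ : Finset (Fin ((D + 1) ^ s) × (Fin k → Fin (D + 1)))).image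
        (fun p => expoP (e p.1, p.2)) := by
    intro M hM
    rw [Finset.mem_image]
    refine ⟨(e.symm (fun i => ⟨M (Sum.inl i),
      Nat.lt_succ_of_le ((MvPolynomial.degreeOf_le_iff.1 (hdeg (Sum.inl i))) M hM)⟩),
      fun j => ⟨M (Sum.inr j),
      Nat.lt_succ_of_le ((MvPolynomial.degreeOf_le_iff.1 (hdeg (Sum.inr j))) M hM)⟩),
      Finset.mem_univ _, ?_⟩
    ext v
    rcases v with v | v
    · simp [expoP]
    · simp [expoP]
  have hinj2 : Function.Injective
      (fun p : Fin ((D + 1) ^ s) × (Fin k → Fin (D + 1)) => expoP (e p.1, p.2)) := by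
    intro a b h
    have h1 := expoP_injective h
    rw [Prod.mk.injEq] at h1
    exact Prod.ext (e.injective h1.1) h1.2
  have h1 := hL (by
    rw [← h0, MvPolynomial.aeval_def, MvPolynomial.eval₂_eq']
    rw [Finset.sum_subset hsupp (by
      intro M _ hM
      rw [MvPolynomial.notMem_support_iff.1 hM, map_zero, zero_mul])]
    rw [Finset.sum_image (fun a _ b _ h => hinj2 h)]
    refine Finset.sum_congr rfl fun p _ => ?_
    rw [Algebra.smul_def, Fintype.prod_sum_type]
    congr 1
    congr 1
    simp only [γ]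
    rw [Complex.exp_sum]
    refine Finset.prod_congr rfl fun i _ => ?_
    rw [Complex.exp_nat_mul]
    rfl)
  ext1 M
  rw [MvPolynomial.coeff_zero]
  by_cases hM : M ∈ P.support
  · obtain ⟨p, _, rfl⟩ := Finset.mem_image.1 (hsupp hM)
    exact h1 p
  · exact MvPolynomial.notMem_support_iff.1 hM

end Pool.Agent.W2helper3.UE
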