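import Pool.Agent.W2helper76.UE.Stm
import Pool.Agent.NH29.GN.Stb
import Pool.Agent.H351R3.Gel.Char

/-!
# Uniform exponents, piece U: the ultrapower
-/

set_option autoImplicit false

namespace Pool.Agent.W2helper3.UE

open Filter Pool.Agent.W2helper76.UE Pool.Agent.NH29.GN.Stb

section

variable {I : Type} (U : Ultrafilter I)

/-- the exponential map of the ultrapower -/
noncomputable def EE : Multiplicative ((U : Filter I).Germ QB) →* (U : Filter I).Germ ℂ where
  toFun γ := Germ.map (fun a : QB => Complex.exp (a : ℂ)) (Multiplicative.toAdd γ)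
  map_one' := by
    show pr U ℂ (fun _ => Complex.exp ((0 : QB) : ℂ)) = 1
    rw [← map_one (pr U ℂ)]
    congr 1
    funext i
    simp
  map_mul' := by
    intro a b
    obtain ⟨f, hf⟩ := pr_surj U (Multiplicative.toAdd a)
    obtain ⟨g, hg⟩ := pr_surj U (Multiplicative.toAdd b)
    rw [toAdd_mul, hf, hg]
    show pr U ℂ (fun i => Complex.exp ((f i + g i : QB) : ℂ)) =
      pr U ℂ (fun i => Complex.exp (f i : ℂ)) * pr U ℂ (fun i => Complex.exp (g i : ℂ))
    rw [← map_mul]
    congr 1
    funext i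
    rw [Pi.mul_apply]
    push_cast
    rw [Complex.exp_add]

theorem EE_pr (f : I → QB) : EE U (Multiplicative.ofAdd (pr U QB f)) =
    pr U ℂ (fun i => expQ (Multiplicative.ofAdd (f i))) := rfl

/-- the element `2 ^ q` -/
noncomputable def rho (q : ℚ) : QB := ⟨Complex.exp ((q : ℂ) * (Real.log 2 : ℂ)), by
  rw [Pool.Agent.H351R3.Gel.mem_QB]
  apply Pool.Agent.H351R3.Gel.isAlgebraic_exp_rat_mul
  rw [← Complex.ofReal_exp, Real.exp_log (by norm_num)]
  have := isAlgebraic_natCast (R := ℚ) (A := ℂ) 2
  push_cast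
  exact_mod_cast this⟩

theorem rho_ne {q : ℚ} (hq : q ≠ 0) : rho q ≠ 1 := by
  intro h
  have h1 : Complex.exp ((q : ℂ) * (Real.log 2 : ℂ)) = 1 := congrArg Subtype.val h
  have h2 : (q : ℂ) * (Real.log 2 : ℂ) = (((q : ℝ) * Real.log 2 : ℝ) : ℂ) := by push_cast; rfl
  rw [h2, ← Complex.ofReal_exp, Complex.ofReal_eq_one, Real.exp_eq_one_iff] at h1
  rcases mul_eq_zero.1 h1 with h3 | h3
  · exact hq (by exact_mod_cast h3)
  · exact absurd h3 (Real.log_pos (by norm_num)).ne'

/-- the character of the rational numbers with values in the constants -/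
noncomputable def rhoHom : Multiplicative ℚ →* (U : Filter I).Germ QB where
  toFun q := pr U QB (fun _ => rho (Multiplicative.toAdd q))
  map_one' := by
    rw [← map_one (pr U QB)]
    congr 1
    funext i
    apply Subtype.ext
    simp [rho]
  map_mul' := by
    intro a b
    rw [← map_mul]
    congr 1
    funext i
    apply Subtype.ext
    simp only [rho, toAdd_mul, Pi.mul_apply]
    push_cast
    rw [← Complex.exp_add]
    congr 1
    ring

theorem rhoHom_ne {q : ℚ} (hq : q ≠ 0) : rhoHom U (Multiplicative.ofAdd q) ≠ 1 := by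
  intro h
  have h1 : pr U QB (fun _ => rho q) = pr U QB (fun _ => 1) := by
    rw [show pr U QB (fun _ => (1 : QB)) = 1 from map_one (pr U QB)]
    exact h
  rw [pr_eq] at h1
  obtain ⟨_, h2⟩ := h1.exists
  exact rho_ne hq h2

/-- the algebra structure -/
noncomputable abbrev alg : Algebra ((U : Filter I).Germ QB) ((U : Filter I).Germ ℂ) :=
  (gm U QB ℂ).toAlgebra

theorem alg_pr (c : I → QB) :
    @algebraMap _ _ _ _ (alg U) (pr U QB c) = pr U ℂ (fun i => ((c i : QB) : ℂ)) := rfl

end

section

variable {κ C Γ : Type} [Field κ] [Field C] [Algebra κ C] [AddCommGroup Γ]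

theorem linInd_of {S : Type} {u : S → C} (h : ∀ (T : Finset S) (c : S → κ),
    ∑ s ∈ T, algebraMap κ C (c s) * u s = 0 → ∀ s ∈ T, c s = 0) : LinearIndependent κ u := by
  rw [linearIndependent_iff']
  intro T c hc
  apply h T c
  rw [← hc]
  apply Finset.sum_congr rfl
  intro s _
  rw [Algebra.smul_def]

theorem bad_of {L : Type} [Fintype L] {E : Multiplicative Γ →* C} {M D : ℕ} {v : L → C} {x : C}
    (γ : Fin M → Γ) (c : L → Fin (D + 1) → Fin M → κ)
    (h1 : ∑ l, ∑ i, ∑ j, algebraMap κ C (c l i j) *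
      (v l * x ^ (i : ℕ) * E (Multiplicative.ofAdd (γ j))) = 0)
    (h2 : ∃ i, ∑ l, ∑ j, algebraMap κ C (c l i j) *
      (v l * E (Multiplicative.ofAdd (γ j))) ≠ 0) : Bad κ E M D v x := by
  refine ⟨γ, c, ?_, ?_⟩
  · rw [← h1]
    refine Finset.sum_congr rfl fun l _ => Finset.sum_congr rfl fun i _ =>
      Finset.sum_congr rfl fun j _ => ?_
    rw [Algebra.smul_def]
  · obtain ⟨i, hi⟩ := h2
    refine ⟨i, fun h => hi ?_⟩
    rw [← h]
    refine Finset.sum_congr rfl fun l _ => Finset.sum_congr rfl fun j _ => ?_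
    rw [Algebra.smul_def]

end

section

variable {I : Type} (U : Ultrafilter I)

theorem lwi : @LWI _ _ _ _ _ (alg U) _ (EE U) := by
  classical
  let _ := alg U
  refine @linInd_of _ _ _ _ (alg U) _ _ fun s g hg γ hγ => ?_
  choose a ha using fun γ : (U : Filter I).Germ QB => pr_surj U γ
  choose c hc using fun γ : (U : Filter I).Germ QB => pr_surj U (g γ)
  have h1 : pr U ℂ (fun i => ∑ γ ∈ s, ((c γ i : QB) : ℂ) *
      expQ (Multiplicative.ofAdd (a γ i))) = 0 := by
    rw [pr_sum, ← hg]
    apply Finset.sum_congr rfl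
    intro γ _
    rw [pr_mul, ← alg_pr, ← hc γ, ← EE_pr, ← ha γ]
  rw [pr_eq_zero] at h1
  have h2 : ∀ᶠ i in (U : Filter I), ∀ γ ∈ s, ∀ γ' ∈ s, γ ≠ γ' → a γ i ≠ a γ' i := by
    rw [Filter.eventually_all_finset]
    intro γ _
    rw [Filter.eventually_all_finset]
    intro γ' _
    by_cases h : γ = γ'
    · exact Eventually.of_forall fun _ h' => absurd h h'
    · have h3 : ¬ ∀ᶠ i in (U : Filter I), a γ i = a γ' i := by
        intro h4
        apply h
        rw [ha γ, ha γ', pr_eq]
        exact h4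
      rw [← Ultrafilter.eventually_not] at h3
      filter_upwards [h3] with i hi _
      exact hi
  rw [hc γ, pr_eq_zero]
  filter_upwards [h1, h2] with i hi1 hi2
  have h3 := Pool.Agent.H340R2.LW.lindemann_weierstrass s (fun γ => ((a γ i : QB) : ℂ))
    (fun γ => ((c γ i : QB) : ℂ))
    (fun γ _ => Pool.Agent.H351R3.Gel.mem_QB.1 (a γ i).2)
    (fun γ _ => Pool.Agent.H351R3.Gel.mem_QB.1 (c γ i).2)
    (fun γ hγ γ' hγ' h => by
      by_contra hne
      exact hi2 γ hγ γ' hγ' hne (Subtype.ext h)) hi1
  exact Subtype.ext (h3 γ hγ)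

theorem charZero_germ : CharZero ((U : Filter I).Germ QB) := by
  rw [← ((pr U QB).comp (Pi.constRingHom I QB)).charZero_iff
    ((pr U QB).comp (Pi.constRingHom I QB)).injective]
  infer_instance

end

theorem ultra : UltraStm := by
  classical
  intro N M D G hyp S
  choose v0 x0 w0 hli hbad using fun F : Finset S => hyp F.card
  let U : Ultrafilter (Finset S) := Ultrafilter.of (atTop : Filter (Finset S))
  have hU : ∀ T : Finset S, ∀ᶠ F in (U : Filter (Finset S)), T ⊆ F := fun T =>
    (Ultrafilter.of_le (atTop : Filter (Finset S))) (eventually_ge_atTop T)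
  have : IsAlgClosed QB := (algebraicClosure.isAlgClosure ℚ ℂ).isAlgClosed
  -- the coordinates of the directions
  let W : Fin G → S → Finset S → ℂ := fun g s F =>
    if h : s ∈ F then w0 F g (F.equivFin ⟨s, h⟩) else 0
  refine ⟨(U : Filter (Finset S)).Germ QB, (U : Filter (Finset S)).Germ ℂ,
    (U : Filter (Finset S)).Germ QB, inferInstance, inferInstance, alg U, inferInstance,
    inferInstance, EE U, rhoHom U, fun l => pr U ℂ (fun F => v0 F l), pr U ℂ x0,
    fun g s => pr U ℂ (W g s), closed U QB, charZero_germ U, closed U ℂ, lwi U,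
    fun q hq => rhoHom_ne U hq, ?_, ?_⟩
  · intro g
    refine @linInd_of _ _ _ _ (alg U) _ _ fun T c hc s hs => ?_
    choose c' hc' using fun s : S => pr_surj U (c s)
    have h1 : pr U ℂ (fun F => ∑ s ∈ T, ((c' s F : QB) : ℂ) * W g s F) = 0 := by
      rw [pr_sum, ← hc]
      apply Finset.sum_congr rfl
      intro s _
      rw [pr_mul, ← alg_pr, ← hc' s]
    rw [pr_eq_zero] at h1
    rw [hc' s, pr_eq_zero]
    filter_upwards [h1, hU T] with F hF1 hF2
    have h2 : LinearIndependent QB (fun s : T => w0 F g (F.equivFin ⟨s.1, hF2 s.2⟩)) :=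
      (hli F g).comp (fun s : T => F.equivFin ⟨s.1, hF2 s.2⟩) (by
        intro a b hab
        have := F.equivFin.injective hab
        exact Subtype.ext (congrArg (fun z : F => z.1) this))
    refine Fintype.linearIndependent_iff.1 h2 (fun s => c' s.1 F) ?_ ⟨s, hs⟩
    rw [← hF1, ← Finset.sum_coe_sort T]
    apply Finset.sum_congr rfl
    intro s _
    simp only [W]
    rw [dif_pos (hF2 s.2), Algebra.smul_def]
    rfl
  · intro f
    let η : (F : Finset S) → Fin G → Option (Fin F.card) := fun F g =>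
      if h : f g ∈ F then some (F.equivFin ⟨f g, h⟩) else none
    have hη : ∀ F g, (η F g).elim 0 (w0 F g) = W g (f g) F := by
      intro F g
      simp only [η, W]
      by_cases h : f g ∈ F
      · rw [dif_pos h, dif_pos h]
        rfl
      · rw [dif_neg h, dif_neg h]
        rfl
    choose γ c h1 i0 h2 using fun F => hbad F (η F)
    let X : Finset S → ℂ := fun F => x0 F + ∑ g, W g (f g) F
    have hX : pr U ℂ x0 + ∑ g, pr U ℂ (W g (f g)) = pr U ℂ X := by
      rw [← pr_sum, ← map_add]
      rfl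
    have hX' : ∀ F, x0 F + ∑ g, (η F g).elim 0 (w0 F g) = X F := by
      intro F
      simp only [X]
      congr 1
      exact Finset.sum_congr rfl fun g _ => hη F g
    -- one index for almost all F
    obtain ⟨i1, hi1⟩ : ∃ i : Fin (D + 1), ∀ᶠ F in (U : Filter (Finset S)), i0 F = i := by
      by_contra hcon
      push Not at hcon
      have h3 : ∀ᶠ F in (U : Filter (Finset S)), ∀ i : Fin (D + 1), i0 F ≠ i := by
        rw [Filter.eventually_all]
        intro i
        have := hcon i
        exact this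
      obtain ⟨F, hF⟩ := h3.exists
      exact hF (i0 F) rfl
    rw [hX]
    refine @bad_of _ _ _ _ _ (alg U) _ _ _ _ _ _ _ _
      (fun j => pr U QB (fun F => γ F j)) (fun l i j => pr U QB (fun F => c F l i j)) ?_ ⟨i1, ?_⟩
    · have h3 : pr U ℂ (fun F => ∑ l, ∑ i, ∑ j, ((c F l i j : QB) : ℂ) *
          (v0 F l * X F ^ (i : ℕ) * expQ (Multiplicative.ofAdd (γ F j)))) = 0 := by
        rw [pr_eq_zero]
        refine Eventually.of_forall fun F => ?_
        rw [← h1 F]
        refine Finset.sum_congr rfl fun l _ => Finset.sum_congr rfl fun i _ =>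
          Finset.sum_congr rfl fun j _ => ?_
        rw [hX' F, Algebra.smul_def]
        rfl
      rw [← h3, pr_sum]
      refine Finset.sum_congr rfl fun l _ => ?_
      rw [pr_sum]
      refine Finset.sum_congr rfl fun i _ => ?_
      rw [pr_sum]
      refine Finset.sum_congr rfl fun j _ => ?_
      rw [pr_mul, pr_mul, pr_mul, pr_pow, alg_pr, EE_pr]
    · intro h0
      have h3 : pr U ℂ (fun F => ∑ l, ∑ j, ((c F l i1 j : QB) : ℂ) *
          (v0 F l * expQ (Multiplicative.ofAdd (γ F j)))) = 0 := by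
        rw [← h0, pr_sum]
        refine Finset.sum_congr rfl fun l _ => ?_
        rw [pr_sum]
        refine Finset.sum_congr rfl fun j _ => ?_
        rw [pr_mul, pr_mul, alg_pr, EE_pr]
      rw [pr_eq_zero] at h3
      obtain ⟨F, hF1, hF2⟩ := (h3.and hi1).exists
      apply h2 F
      rw [hF2, ← hF1]
      refine Finset.sum_congr rfl fun l _ => Finset.sum_congr rfl fun j _ => ?_
      rw [Algebra.smul_def]
      rfl

end Pool.Agent.W2helper3.UE
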